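import Pool.Agent.H20.HR.BNDA

/-!
Row CFUA of the board hrk_modules.
-/

open Polynomial

namespace Pool.Agent.H20.HR

open Pool.Agent.H72.BF (RP Gf binP)
open Pool.Agent.H72.HR Pool.Agent.H72.HRA
open Pool.Agent.H84.HR (exists_Lam_bound pow_le_exp_h mu_le one_add_le_exp_mul abs_C0_le norm_th_le
  log_cond tc_bound card_Ux_le prod_pow_le)

noncomputable section

/-- Row CFUA. -/
theorem cfua : T_CFUA := by
  intro n lam ρ τ _ _ _ _ c w q C0
  obtain ⟨c0, hc0, htcb⟩ := Pool.Agent.H84.HR.tcb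
  obtain ⟨M, hM0, hM⟩ := exists_Lam_bound lam q
  set c1 : ℝ := c + |C0| + 1 with hc1
  set c2 : ℝ := c + (|C0| + Fintype.card τ * M) + 1 with hc2
  set c3 : ℝ := c0 * (1 + Real.log 4 + Fintype.card τ * M * 4) with hc3
  have hc1' : 0 ≤ c1 := by positivity
  have hc2' : 0 ≤ c2 := by positivity
  have hl4 : 0 ≤ Real.log 4 := Real.log_nonneg (by norm_num)
  have hc3' : 0 ≤ c3 := by positivity
  refine ⟨Fintype.card τ * c1 + w * c2 + Fintype.card ρ * c3 + 1, by positivity, ?_⟩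
  intro A B Q hAQ hB hBQ
  refine ⟨(2 * A + 1) ^ 2, ?_⟩
  intro g hg
  have hg1 : 1 ≤ g := le_trans (Nat.one_le_pow _ _ (by omega)) hg
  refine ⟨g ^ Q, ?_⟩
  intro h hgh ν k E hk hE I y z x u hy hz
  have hh : 1 ≤ h := le_trans (Nat.one_le_pow _ _ hg1) hgh
  have hW : (0 : ℝ) ≤ h * (g : ℝ) ^ Q := by positivity
  rw [cfuC, norm_mul, norm_mul]
  have b1 : ‖∏ a, gaC ν E u a ^ y a‖ ≤ Real.exp (Fintype.card τ * c1 * (h * (g : ℝ) ^ Q)) :=
    prod_pow_le _ y c1 h ((g : ℝ) ^ Q) (g ^ Q) (by push_cast; rfl) hc1' (Nat.cast_nonneg h)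
      (fun a => norm_gaC_le hh hgh hg1 hE u a) hy
  have b2 : ‖∏ j, ymC lam q ν k E I u j ^ z j‖ ≤
      Real.exp (Fintype.card (Fin w) * c2 * (h * (g : ℝ) ^ Q)) :=
    prod_pow_le _ z c2 h ((g : ℝ) ^ Q) (g ^ Q) (by push_cast; rfl) hc2' (Nat.cast_nonneg h)
      (fun j => norm_ymC_le hh hgh hg1 hk hE hM0 hM I u j) hz
  have b3 : ‖∏ i, (tc (rp u i) (th lam q u i) (x i) *
      ((4 * (h * (g : ℝ) ^ A) : ℝ) : ℂ) ^ x i)‖ ≤
      Real.exp (Fintype.card ρ * c3 * (h * (g : ℝ) ^ Q)) := by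
    rw [norm_prod]
    calc ∏ i, ‖tc (rp u i) (th lam q u i) (x i) * ((4 * (h * (g : ℝ) ^ A) : ℝ) : ℂ) ^ x i‖
        ≤ ∏ _i : ρ, Real.exp (c3 * (h * (g : ℝ) ^ Q)) := by
          refine Finset.prod_le_prod (fun i _ => norm_nonneg _) fun i _ => ?_
          have h1 := tc_bound (q := q) (lam := lam) c0 hc0 htcb hh hAQ hB hBQ hg hM0 hM 4
            (by norm_num) u i (x i + 1)
          refine le_trans ?_ h1
          rw [norm_mul, norm_pow, Complex.norm_real, Real.norm_of_nonneg (by positivity)]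
          exact Finset.single_le_sum (f := fun j => ‖tc (rp u i) (th lam q u i) j‖ *
            (4 * (h * (g : ℝ) ^ A)) ^ j) (fun j _ => by positivity)
            (Finset.self_mem_range_succ (x i))
      _ = Real.exp (Fintype.card ρ * c3 * (h * (g : ℝ) ^ Q)) := by
          rw [Finset.prod_const, Finset.card_univ, ← Real.exp_nat_mul]
          congr 1
          ring
  rw [Fintype.card_fin] at b2
  refine (mul_le_mul (mul_le_mul b1 b2 (norm_nonneg _) (Real.exp_pos _).le) b3 (norm_nonneg _)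
    (by positivity)).trans ?_
  rw [← Real.exp_add, ← Real.exp_add]
  refine Real.exp_le_exp.2 ?_
  nlinarith [hW]

end

end Pool.Agent.H20.HR
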