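import Pool.Agent.H72.HR.Targets

set_option autoImplicit false

namespace Pool.Agent.H20.HR

open Module

section
variable {k A : Type} [Field k] [CommRing A] [Algebra k A]

/-- the quotient map as a linear map -/
noncomputable abbrev qm (k : Type) {A : Type} [Field k] [CommRing A] [Algebra k A] (I : Ideal A) :
    A →ₗ[k] (A ⧸ I) := (Ideal.Quotient.mkₐ k I).toLinearMap

theorem qm_eq_zero (I : Ideal A) (x : A) : qm k I x = 0 ↔ x ∈ I := by
  simp only [AlgHom.toLinearMap_apply, Ideal.Quotient.mkₐ_eq_mk]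
  exact Ideal.Quotient.eq_zero_iff_mem

theorem qm_surj (I : Ideal A) : Function.Surjective (qm k I) := Ideal.Quotient.mk_surjective

/-- general comparison: `ker f ≤ ker g` gives `finrank (range g) ≤ finrank (range f)` -/
theorem finrank_range_le {V W W' : Type*} [AddCommGroup V] [Module k V] [AddCommGroup W]
    [Module k W] [AddCommGroup W'] [Module k W'] [FiniteDimensional k V] (f : V →ₗ[k] W)
    (g : V →ₗ[k] W') (h : LinearMap.ker f ≤ LinearMap.ker g) :
    finrank k (LinearMap.range g) ≤ finrank k (LinearMap.range f) := by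
  have h1 := LinearMap.finrank_range_add_finrank_ker f
  have h2 := LinearMap.finrank_range_add_finrank_ker g
  have h3 := Submodule.finrank_mono h
  omega

/-- upper bound: `dim A/K ≤ dim A/(K + a) + dim A/K1` when `a K1 ⊆ K` -/
theorem quot_step (K K1 J : Ideal A) (a : A) (h : ∀ x ∈ K1, a * x ∈ K)
    (hJ : J = K ⊔ Ideal.span {a}) (h1 : Module.Finite k (A ⧸ K1)) (h2 : Module.Finite k (A ⧸ J)) :
    Module.Finite k (A ⧸ K) ∧
      finrank k (A ⧸ K) ≤ finrank k (A ⧸ J) + finrank k (A ⧸ K1) := by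
  classical
  have hKJ : K ≤ J := hJ ▸ le_sup_left
  let φ : (A ⧸ K1) →ₗ[k] (A ⧸ K) := (Submodule.liftQ (K1.restrictScalars k)
    ((qm k K).comp (LinearMap.mulLeft k a))
    (by
      intro x hx
      simp only [LinearMap.mem_ker, LinearMap.comp_apply, LinearMap.mulLeft_apply]
      exact (qm_eq_zero K _).2 (h x hx)))
  let ψ : (A ⧸ K) →ₗ[k] (A ⧸ J) := (Ideal.Quotient.factorₐ k hKJ).toLinearMap
  have hψ : ∀ x : A, ψ (qm k K x) = qm k J x := fun x => rfl
  have hφ : ∀ x : A, φ (qm k K1 x) = qm k K (a * x) := fun x => rfl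
  have hsurj : Function.Surjective ψ := by
    intro y
    obtain ⟨x, rfl⟩ := qm_surj (k := k) J y
    exact ⟨qm k K x, hψ x⟩
  have hker : LinearMap.ker ψ ≤ LinearMap.range φ := by
    intro y hy
    obtain ⟨x, rfl⟩ := qm_surj (k := k) K y
    rw [LinearMap.mem_ker, hψ, qm_eq_zero, hJ, Submodule.mem_sup] at hy
    obtain ⟨u, hu, v, hv, huv⟩ := hy
    obtain ⟨w, rfl⟩ := Ideal.mem_span_singleton.1 hv
    refine ⟨qm k K1 w, ?_⟩
    rw [hφ, ← huv, map_add, (qm_eq_zero K u).2 hu, zero_add]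
  have hfr : Module.Finite k (LinearMap.range φ) := inferInstance
  have hfk : Module.Finite k (LinearMap.ker ψ) :=
    Module.Finite.of_injective (Submodule.inclusion hker) (Submodule.inclusion_injective hker)
  have hfq : Module.Finite k ((A ⧸ K) ⧸ LinearMap.ker ψ) :=
    Module.Finite.of_injective (ψ.quotKerEquivOfSurjective hsurj).toLinearMap
      (ψ.quotKerEquivOfSurjective hsurj).injective
  have hfin : Module.Finite k (A ⧸ K) := Module.Finite.of_submodule_quotient (LinearMap.ker ψ)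
  refine ⟨hfin, ?_⟩
  have e1 := LinearMap.finrank_range_add_finrank_ker ψ
  rw [LinearMap.range_eq_top.2 hsurj, finrank_top] at e1
  have e2 := Submodule.finrank_mono hker
  have e3 : finrank k (LinearMap.range φ) ≤ finrank k (A ⧸ K1) := LinearMap.finrank_range_le φ
  omega

/-- dimension of the image of `U` in `A/I` -/
noncomputable def hh (k : Type) {A : Type} [Field k] [CommRing A] [Algebra k A] (I : Ideal A)
    (U : Submodule k A) : ℕ := finrank k (U.map (qm k I))

theorem hh_mono (I : Ideal A) (U U' : Submodule k A) [FiniteDimensional k U'] (h : U ≤ U') :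
    hh k I U ≤ hh k I U' :=
  Submodule.finrank_mono (Submodule.map_mono h)

/-- lower bound: `h_I(U') ≥ h_J(U') + h_J1(U)` when `a U ⊆ U'`, `a ∈ J`, `I ≤ J`, `(I : a) ≤ J1` -/
theorem hh_step (I J J1 : Ideal A) (a : A) (U U' : Submodule k A) [FiniteDimensional k U]
    [FiniteDimensional k U'] (hU : ∀ x ∈ U, a * x ∈ U') (hIJ : I ≤ J) (ha : a ∈ J)
    (h1 : ∀ x, a * x ∈ I → x ∈ J1) : hh k J U' + hh k J1 U ≤ hh k I U' := by
  classical
  let f : U →ₗ[k] (A ⧸ I) := ((qm k I).comp (LinearMap.mulLeft k a)).comp U.subtype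
  let g : U →ₗ[k] (A ⧸ J1) := (qm k J1).comp U.subtype
  have hfg : LinearMap.ker f ≤ LinearMap.ker g := by
    intro x hx
    have hx' : qm k I (a * (x : A)) = 0 := hx
    exact (qm_eq_zero (k := k) J1 _).2 (h1 _ ((qm_eq_zero (k := k) I _).1 hx'))
  have e1 := finrank_range_le f g hfg
  have hg : LinearMap.range g = U.map (qm k J1) := by
    rw [LinearMap.range_comp, Submodule.range_subtype]
  let ψ : (A ⧸ I) →ₗ[k] (A ⧸ J) := (Ideal.Quotient.factorₐ k hIJ).toLinearMap
  let ψ' : (U'.map (qm k I)) →ₗ[k] (A ⧸ J) := ψ.comp (U'.map (qm k I)).subtype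
  have hψ' : LinearMap.range ψ' = U'.map (qm k J) := by
    rw [LinearMap.range_comp, Submodule.range_subtype, ← Submodule.map_comp]
    rfl
  have e2 := LinearMap.finrank_range_add_finrank_ker ψ'
  have hle : LinearMap.range f ≤ (LinearMap.ker ψ').map (U'.map (qm k I)).subtype := by
    rintro _ ⟨x, rfl⟩
    have hx : a * (x : A) ∈ U' := hU _ x.2
    refine ⟨⟨qm k I (a * (x : A)), ⟨_, hx, rfl⟩⟩, ?_, rfl⟩
    have : ψ (qm k I (a * (x : A))) = qm k J (a * (x : A)) := rfl
    change ψ (qm k I (a * (x : A))) = 0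
    rw [this, qm_eq_zero]
    exact J.mul_mem_right _ ha
  have e3 := Submodule.finrank_mono hle
  have e4 : finrank k ((LinearMap.ker ψ').map (U'.map (qm k I)).subtype) =
      finrank k (LinearMap.ker ψ') :=
    Submodule.finrank_map_subtype_eq _ _
  unfold hh
  rw [hψ'] at e2
  rw [hg] at e1
  omega

/-- the induction claim -/
def Cl (k : Type) {A : Type} [Field k] [CommRing A] [Algebra k A] (V : ℕ → Submodule k A)
    (F : ℕ → Ideal A) (I : Ideal A) : Prop :=
  ∃ c, ∀ n, Module.Finite k (A ⧸ (I ⊔ F n)) ∧ finrank k (A ⧸ (I ⊔ F n)) ≤ hh k I (V (n + c))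

theorem claim [IsNoetherianRing A] (V : ℕ → Submodule k A) (F : ℕ → Ideal A) (L : Set A)
    (hV : Monotone V) (hf : ∀ m, FiniteDimensional k (V m)) (hex : ∀ a, ∃ m, a ∈ V m)
    (hmul : ∀ m n a b, a ∈ V m → b ∈ V n → a * b ∈ V (m + n)) (hF0 : F 0 = ⊤)
    (hFL : ∀ f ∈ L, ∀ n, ∀ g ∈ F n, f * g ∈ F (n + 1)) (hL : ∀ f ∈ L, f ∈ V 1)
    (hpr : ∀ I : Ideal A, I.IsPrime → L ⊆ I → Module.Finite k (A ⧸ I) ∨ ∀ n, I ⊔ F n = ⊤)
    (I : Ideal A) : Cl k V F I := by
  classical
  induction I using WellFoundedGT.induction with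
  | _ I ih =>
  have htop : ∀ J : Ideal A, J = ⊤ → Module.Finite k (A ⧸ J) ∧ finrank k (A ⧸ J) = 0 := by
    rintro J rfl
    have : Subsingleton (A ⧸ (⊤ : Ideal A)) := Ideal.Quotient.subsingleton_iff.2 rfl
    exact ⟨inferInstance, finrank_zero_of_subsingleton⟩
  by_cases hIt : I = ⊤
  · refine ⟨0, fun n => ?_⟩
    obtain ⟨h1, h2⟩ := htop (I ⊔ F n) (by rw [hIt, top_sup_eq])
    exact ⟨h1, by omega⟩
  by_cases hp : I.IsPrime
  · by_cases hLI : L ⊆ I
    · rcases hpr I hp hLI with hfin | hsup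
      · -- `A/I` finite
        have := hfin
        obtain ⟨c, hc⟩ : ∃ c, (V c).map (qm k I) = ⊤ := by
          let s := Module.finBasis k (A ⧸ I)
          have h1 : ∀ i, ∃ m, s i ∈ (V m).map (qm k I) := by
            intro i
            obtain ⟨x, hx⟩ := qm_surj (k := k) I (s i)
            obtain ⟨m, hm⟩ := hex x
            exact ⟨m, x, hm, hx⟩
          choose m hm using h1
          refine ⟨Finset.univ.sup m, top_le_iff.1 ?_⟩
          rw [← s.span_eq]
          refine Submodule.span_le.2 ?_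
          rintro _ ⟨i, rfl⟩
          exact Submodule.map_mono (hV (Finset.le_sup (Finset.mem_univ i))) (hm i)
        refine ⟨c, fun n => ?_⟩
        have hle : I ≤ I ⊔ F n := le_sup_left
        let ψ : (A ⧸ I) →ₗ[k] (A ⧸ (I ⊔ F n)) := (Ideal.Quotient.factorₐ k hle).toLinearMap
        have hs : Function.Surjective ψ := Ideal.Quotient.factor_surjective hle
        have h3 : hh k I (V (n + c)) = finrank k (A ⧸ I) := by
          unfold hh
          have : (V (n + c)).map (qm k I) = ⊤ := top_le_iff.1 (hc ▸ Submodule.map_mono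
            (hV (Nat.le_add_left c n)))
          rw [this, finrank_top]
        exact ⟨Module.Finite.of_surjective ψ hs, by
          rw [h3]
          have := LinearMap.finrank_range_le ψ
          rwa [LinearMap.range_eq_top.2 hs, finrank_top] at this⟩
      · refine ⟨0, fun n => ?_⟩
        obtain ⟨h1, h2⟩ := htop _ (hsup n)
        exact ⟨h1, by omega⟩
    · -- prime, `f ∈ L \ I`
      obtain ⟨f, hfL, hfI⟩ := Set.not_subset.1 hLI
      have hJ : I < I ⊔ Ideal.span {f} := by
        refine lt_of_le_of_ne le_sup_left (fun h => hfI ?_)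
        rw [h]
        exact Ideal.mem_sup_right (Ideal.mem_span_singleton_self f)
      obtain ⟨c, hc⟩ := ih _ hJ
      have hstep : ∀ m, hh k (I ⊔ Ideal.span {f}) (V (m + 1)) + hh k I (V m) ≤
          hh k I (V (m + 1)) := by
        intro m
        refine hh_step I _ I f (V m) (V (m + 1)) (fun x hx => ?_) le_sup_left
          (Ideal.mem_sup_right (Ideal.mem_span_singleton_self f)) (fun x hx => ?_)
        · have := hmul 1 m f x (hL f hfL) hx
          rwa [Nat.add_comm 1 m] at this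
        · exact (hp.mem_or_mem hx).resolve_left hfI
      refine ⟨c, fun n => ?_⟩
      induction n with
      | zero =>
        obtain ⟨h1, h2⟩ := htop (I ⊔ F 0) (by rw [hF0, sup_top_eq])
        exact ⟨h1, by omega⟩
      | succ n ihn =>
        have hmem : ∀ x ∈ I ⊔ F n, f * x ∈ I ⊔ F (n + 1) := by
          intro x hx
          obtain ⟨u, hu, v, hv, rfl⟩ := Submodule.mem_sup.1 hx
          rw [mul_add]
          exact Submodule.add_mem _ (Ideal.mem_sup_left (I.mul_mem_left _ hu))
            (Ideal.mem_sup_right (hFL f hfL n v hv))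
        obtain ⟨h1, h2⟩ := quot_step (k := k) (I ⊔ F (n + 1)) (I ⊔ F n)
          ((I ⊔ Ideal.span {f}) ⊔ F (n + 1)) f hmem (by
            rw [sup_assoc, sup_assoc, sup_comm (Ideal.span {f})]) ihn.1 (hc (n + 1)).1
        refine ⟨h1, h2.trans ?_⟩
        have := hstep (n + c)
        have e : n + 1 + c = n + c + 1 := by omega
        have h3 := (hc (n + 1)).2
        rw [e] at h3 ⊢
        have h4 := ihn.2
        omega
  · -- not prime
    obtain ⟨a, b, hab, ha, hb⟩ : ∃ a b, a * b ∈ I ∧ a ∉ I ∧ b ∉ I := by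
      by_contra hcon
      push Not at hcon
      refine hp ⟨hIt, fun {x y} hxy => ?_⟩
      by_contra h
      push Not at h
      exact h.2 (hcon x y hxy h.1)
    let J1 : Ideal A := Submodule.comap (LinearMap.mulLeft A a) I
    let J2 : Ideal A := I ⊔ Ideal.span {a}
    have hJ1 : ∀ x, x ∈ J1 ↔ a * x ∈ I := fun x => Iff.rfl
    have h1 : I < J1 := by
      refine lt_of_le_of_ne (fun x hx => (hJ1 x).2 (I.mul_mem_left _ hx)) (fun h => hb ?_)
      rw [h]
      exact (hJ1 b).2 hab
    have h2 : I < J2 := by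
      refine lt_of_le_of_ne le_sup_left (fun h => ha ?_)
      rw [h]
      exact Ideal.mem_sup_right (Ideal.mem_span_singleton_self a)
    obtain ⟨c1, hc1⟩ := ih _ h1
    obtain ⟨c2, hc2⟩ := ih _ h2
    obtain ⟨ma, hma⟩ := hex a
    refine ⟨c1 + ma + c2, fun n => ?_⟩
    have hmem : ∀ x ∈ J1 ⊔ F n, a * x ∈ I ⊔ F n := by
      intro x hx
      obtain ⟨u, hu, v, hv, rfl⟩ := Submodule.mem_sup.1 hx
      rw [mul_add]
      exact Submodule.add_mem _ (Ideal.mem_sup_left ((hJ1 u).1 hu))
        (Ideal.mem_sup_right ((F n).mul_mem_left _ hv))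
    obtain ⟨h3, h4⟩ := quot_step (k := k) (I ⊔ F n) (J1 ⊔ F n) (J2 ⊔ F n) a hmem (by
      rw [sup_assoc, sup_assoc, sup_comm (Ideal.span {a})]) (hc1 n).1 (hc2 n).1
    refine ⟨h3, h4.trans ?_⟩
    have h5 := hh_step (k := k) I J2 J1 a (V (n + c1)) (V (n + (c1 + ma + c2)))
      (fun x hx => by
        have := hmul ma (n + c1) a x hma hx
        exact hV (by omega) this) le_sup_left
      (Ideal.mem_sup_right (Ideal.mem_span_singleton_self a)) (fun x hx => (hJ1 x).2 hx)
    have h6 := hh_mono (k := k) J2 (V (n + c2)) (V (n + (c1 + ma + c2))) (hV (by omega))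
    have h7 := (hc1 n).2
    have h8 := (hc2 n).2
    omega

theorem nef : Pool.Agent.H72.HR.T_NEF := by
  intro k A _ _ _ _ V F L hV hf hex hmul hF0 hFL hL hpr
  obtain ⟨c, hc⟩ := claim V F L hV hf hex hmul hF0 hFL hL hpr ⊥
  refine ⟨c, fun n => ?_⟩
  obtain ⟨h1, h2⟩ := hc n
  rw [bot_sup_eq] at h1 h2
  refine ⟨h1, h2.trans ?_⟩
  exact Submodule.finrank_map_le (qm k ⊥) (V (n + c))

end

end Pool.Agent.H20.HR
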