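import Pool.Agent.H72.HRA.Targets
import Pool.Agent.H93.HR.OBA

/-!
Rows OBTC and OBAC of the board hrk_modules (complex coefficients).
-/

open Module

namespace Pool.Agent.H20.HR

open Pool.Agent.H72.HR Pool.Agent.H72.HRA

variable {J : Type} [Fintype J]

/-- the contraction with the complex vector `e` -/
noncomputable def ctrC {P : Type} (e : J → ℂ) : (P × J → ℚ) →ₗ[ℚ] (P → ℂ) where
  toFun v := fun p => ∑ a, e a * ((v (p, a) : ℚ) : ℂ)
  map_add' v w := by
    ext p
    simp only [Pi.add_apply, Rat.cast_add, mul_add, Finset.sum_add_distrib]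
  map_smul' r v := by
    ext p
    simp only [Pi.smul_apply, smul_eq_mul, Rat.cast_mul, RingHom.id_apply]
    rw [Rat.smul_def, Finset.mul_sum]
    exact Finset.sum_congr rfl fun a _ => by ring

theorem ctrC_apply {P : Type} (e : J → ℂ) (v : P × J → ℚ) (p : P) :
    ctrC e v p = ∑ a, e a * ((v (p, a) : ℚ) : ℂ) := rfl

theorem IndC_mono {A B : ℕ} (h : A ≤ B) {e : J → ℂ} (he : IndC B e) : IndC A e :=
  fun m hm h0 => he m (fun a => (hm a).trans (by exact_mod_cast h)) h0

/-- the key lemma: a rational subspace of `ℚ^P ⊗ ℚ^J` has dimension at most `|J|` times the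
dimension of the complex span of its contraction, if `e` has no short relation. -/
theorem keyC [DecidableEq J] {P : Type} [Fintype P] [DecidableEq P] (S : Finset P) :
    ∀ V : Submodule ℚ (P × J → ℚ), (∀ v ∈ V, ∀ p, p ∉ S → ∀ a, v (p, a) = 0) →
    ∃ A : ℕ, ∀ e : J → ℂ, IndC A e → ∀ X : Submodule ℂ (P → ℂ), (∀ v ∈ V, ctrC e v ∈ X) →
      finrank ℚ V ≤ Fintype.card J * finrank ℂ X := by
  induction S using Finset.induction_on with
  | empty =>
    intro V hV
    refine ⟨0, fun e _ X _ => ?_⟩
    have : V = ⊥ := by
      rw [eq_bot_iff]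
      intro v hv
      rw [Submodule.mem_bot]
      ext ⟨p, a⟩
      exact hV v hv p (Finset.notMem_empty p) a
    rw [this]; simp
  | insert p S hp ih =>
    intro V hV
    -- the projection to the coordinates `(p, a)`
    let π : (P × J → ℚ) →ₗ[ℚ] (J → ℚ) := LinearMap.funLeft ℚ ℚ (fun a : J => (p, a))
    have hπ : ∀ v a, π v a = v (p, a) := fun v a => rfl
    by_cases hVk : V ≤ LinearMap.ker π
    · refine ih V (fun v hv q hq a => ?_)
      by_cases hqp : q = p
      · subst hqp
        have := hVk hv
        rw [LinearMap.mem_ker] at this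
        rw [← hπ v a, this]; rfl
      · exact hV v hv q (by simp [hqp, hq]) a
    · obtain ⟨v, hv, hvk⟩ := SetLike.not_le_iff_exists.1 hVk
      obtain ⟨A₁, hA₁⟩ := ih (V ⊓ LinearMap.ker π) (fun v hv q hq a => by
        by_cases hqp : q = p
        · subst hqp
          have := hv.2
          rw [SetLike.mem_coe, LinearMap.mem_ker] at this
          rw [← hπ v a, this]; rfl
        · exact hV v hv.1 q (by simp [hqp, hq]) a)
      obtain ⟨N, w, hN, hw⟩ := Pool.Agent.H93.HR.exists_int (fun a : J => v (p, a))
      refine ⟨max A₁ (∑ a, (w a).natAbs), fun e he X hX => ?_⟩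
      have h2 := IndC_mono (le_max_right _ _) he
      -- the part of `X` with `p`-coordinate zero
      let X' : Submodule ℂ (P → ℂ) := X ⊓ LinearMap.ker (LinearMap.proj (R := ℂ)
        (φ := fun _ : P => ℂ) p)
      have h1 := hA₁ e (IndC_mono (le_max_left _ _) he) X' (fun u hu => by
        refine ⟨hX u hu.1, ?_⟩
        rw [SetLike.mem_coe, LinearMap.mem_ker, LinearMap.proj_apply, ctrC_apply]
        refine Finset.sum_eq_zero fun a _ => ?_
        have := hu.2
        rw [SetLike.mem_coe, LinearMap.mem_ker] at this
        rw [← hπ u a, this]; simp)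
      have hne : ctrC e v p ≠ 0 := by
        intro h0
        rw [ctrC_apply] at h0
        have h3 : ∑ a, (w a : ℂ) * e a = 0 := by
          calc ∑ a, (w a : ℂ) * e a = (N : ℂ) * ∑ a, e a * ((v (p, a) : ℚ) : ℂ) := by
                rw [Finset.mul_sum]
                refine Finset.sum_congr rfl fun a _ => ?_
                have h4 : ((w a : ℚ) : ℂ) = ((N * v (p, a) : ℚ) : ℂ) := by rw [hw a]
                push_cast at h4
                rw [h4]; ring
            _ = 0 := by rw [h0, mul_zero]
        have h5 := h2 w (fun a => by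
          rw [Int.abs_eq_natAbs]
          exact_mod_cast Finset.single_le_sum (f := fun a => (w a).natAbs)
            (fun _ _ => Nat.zero_le _) (Finset.mem_univ a)) h3
        apply hvk
        rw [LinearMap.mem_ker]
        ext a
        have h6 := hw a
        rw [h5] at h6
        simp only [Pi.zero_apply, Int.cast_zero] at h6
        rw [hπ]
        have hN' : (N : ℚ) ≠ 0 := by exact_mod_cast hN
        have := mul_eq_zero.1 h6.symm
        exact this.resolve_left hN'
      -- dimensions
      have hd1 : finrank ℚ V ≤ Fintype.card J + finrank ℚ (V ⊓ LinearMap.ker π : Submodule ℚ _) := by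
        have h7 := LinearMap.finrank_range_add_finrank_ker (π.domRestrict V)
        have h8 : finrank ℚ (LinearMap.range (π.domRestrict V)) ≤ Fintype.card J := by
          have := Submodule.finrank_le (LinearMap.range (π.domRestrict V))
          simpa using this
        have h9 : finrank ℚ (LinearMap.ker (π.domRestrict V)) =
            finrank ℚ (V ⊓ LinearMap.ker π : Submodule ℚ _) := by
          rw [LinearMap.ker_domRestrict]
          rw [← Submodule.map_comap_subtype]
          exact (LinearEquiv.finrank_eq (Submodule.equivMapOfInjective _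
            (Submodule.injective_subtype V) _))
        omega
      have hd2 : finrank ℂ X' + 1 ≤ finrank ℂ X := by
        have hlt : X' < X := by
          refine lt_of_le_of_ne inf_le_left ?_
          intro heq
          have h10 : ctrC e v ∈ X' := by
            rw [heq]; exact hX v hv
          have h11 := h10.2
          rw [SetLike.mem_coe, LinearMap.mem_ker, LinearMap.proj_apply] at h11
          exact hne h11
        exact Submodule.finrank_lt_finrank_of_lt hlt
      calc finrank ℚ V ≤ Fintype.card J + finrank ℚ (V ⊓ LinearMap.ker π : Submodule ℚ _) := hd1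
        _ ≤ Fintype.card J + Fintype.card J * finrank ℂ X' := by
            exact Nat.add_le_add_left h1 _
        _ = Fintype.card J * (finrank ℂ X' + 1) := by ring
        _ ≤ _ := Nat.mul_le_mul_left _ hd2

/-- the key lemma without support condition -/
theorem keyC' [DecidableEq J] {P : Type} [Fintype P] [DecidableEq P]
    (V : Submodule ℚ (P × J → ℚ)) :
    ∃ A : ℕ, ∀ e : J → ℂ, IndC A e → ∀ X : Submodule ℂ (P → ℂ), (∀ v ∈ V, ctrC e v ∈ X) →
      finrank ℚ V ≤ Fintype.card J * finrank ℂ X :=
  keyC Finset.univ V (fun _ _ p hp => absurd (Finset.mem_univ p) hp)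

/-- Row OBTC. -/
theorem obtc : T_OBTC := by
  classical
  intro J _ _ c T1
  -- finitely many sets `Θ`
  let B : Set (Fin c × J → ℤ) := {u | ∀ x, |u x| ≤ T1}
  have hB : B.Finite := by
    exact (Set.Finite.pi' (fun _ => Set.finite_Icc (-(T1 : ℤ)) T1)).subset (by
      intro u hu x
      exact abs_le.1 (hu x))
  have hP : {Θ : Set (Fin c × J → ℤ) | Θ ⊆ B}.Finite := hB.finite_subsets
  -- the space of `Θ`
  let V : Set (Fin c × J → ℤ) → Submodule ℚ (Fin c × J → ℚ) := fun Θ =>
    { carrier := {v | ∀ u ∈ Θ, ∑ x, (u x : ℚ) * v x = 0}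
      add_mem' := by
        intro v w hv hw u hu
        simp only [Pi.add_apply, mul_add, Finset.sum_add_distrib, hv u hu, hw u hu, add_zero]
      zero_mem' := by intro u _; simp
      smul_mem' := by
        intro a v hv u hu
        have := hv u hu
        simp only [Pi.smul_apply, smul_eq_mul]
        calc ∑ x, (u x : ℚ) * (a * v x) = a * ∑ x, (u x : ℚ) * v x := by
              rw [Finset.mul_sum]; exact Finset.sum_congr rfl fun x _ => by ring
          _ = 0 := by rw [this, mul_zero] }
  choose A hA using fun Θ => keyC' (J := J) (V Θ)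
  refine ⟨hP.toFinset.sup A, fun e he Θ hΘ U hU X hX => ?_⟩
  have hUV : U = V Θ := by
    ext v; exact hU v
  rw [hUV]
  exact hA Θ e (IndC_mono (Finset.le_sup (f := A) (hP.mem_toFinset.2 (fun u hu => hΘ u hu))) he)
    X (fun v hv => hX v (by rw [hUV]; exact hv))

/-- Row OBAC. -/
theorem obac : T_OBAC := by
  classical
  intro J _ _ l K
  let B : Set (Fin l × J → ℤ) := {u | ∀ x, |u x| ≤ K}
  have hB : B.Finite := by
    exact (Set.Finite.pi' (fun _ => Set.finite_Icc (-(K : ℤ)) K)).subset (by
      intro u hu x
      exact abs_le.1 (hu x))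
  have hP : {Θ : Set (Fin l × J → ℤ) | Θ ⊆ B}.Finite := hB.finite_subsets
  let V : Set (Fin l × J → ℤ) → Submodule ℚ (Fin l × J → ℚ) := fun Θ =>
    Submodule.span ℚ ((fun (u : Fin l × J → ℤ) (x : Fin l × J) => (u x : ℚ)) '' Θ)
  choose A hA using fun Θ => keyC' (J := J) (V Θ)
  refine ⟨hP.toFinset.sup A, fun e he m v hv hli X hX => ?_⟩
  have h4 : ∀ u ∈ V (Set.range v), ctrC e u ∈ X := by
    intro u hu
    have h5 : (V (Set.range v)).map (ctrC e) ≤ X.restrictScalars ℚ := by
      simp only [V]
      rw [Submodule.map_span, Submodule.span_le]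
      rintro _ ⟨_, ⟨_, ⟨j, rfl⟩, rfl⟩, rfl⟩
      have h6 := hX j
      rw [SetLike.mem_coe, Submodule.restrictScalars_mem]
      convert h6 using 1
      ext p
      rw [ctrC_apply]
      refine Finset.sum_congr rfl fun a _ => ?_
      push_cast
      rfl
    exact h5 (Submodule.mem_map_of_mem hu)
  have h1 := hA (Set.range v) e (IndC_mono (Finset.le_sup (f := A) (hP.mem_toFinset.2 (by
    rintro u ⟨j, rfl⟩
    exact hv j))) he) X h4
  have h2 : finrank ℚ (V (Set.range v)) = m := by
    have hliq : LinearIndependent ℚ (fun (j : Fin m) (x : Fin l × J) => (v j x : ℚ)) := by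
      rw [← LinearIndependent.iff_fractionRing ℤ ℚ]
      let F : (Fin l × J → ℤ) →ₗ[ℤ] (Fin l × J → ℚ) :=
        { toFun := fun u x => (u x : ℚ)
          map_add' := by intro u w; ext x; simp
          map_smul' := by intro a u; ext x; simp }
      have hF : LinearMap.ker F = ⊥ := by
        rw [LinearMap.ker_eq_bot]
        intro u w huw
        ext x
        have h0 : ((u x : ℤ) : ℚ) = ((w x : ℤ) : ℚ) := congrFun huw x
        exact_mod_cast h0
      exact hli.map' F hF
    have h3 : V (Set.range v) = Submodule.span ℚ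
        (Set.range (fun (j : Fin m) (x : Fin l × J) => (v j x : ℚ))) := by
      simp only [V]
      congr 1
      ext u
      simp
    rw [h3, finrank_span_eq_card hliq]
    simp
  rw [h2] at h1
  exact h1

end Pool.Agent.H20.HR
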