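import Pool.Agent.H72.HRA.Targets
import Pool.Agent.H84.HR.CFU

/-!
Board hrk_modules, part B: sizes of the objects with complex coefficients.
-/

open Polynomial

namespace Pool.Agent.H20.HR

open Pool.Agent.H72.BF (RP Gf binP)
open Pool.Agent.H72.HR Pool.Agent.H72.HRA
open Pool.Agent.H84.HR (exists_Lam_bound pow_le_exp_h mu_le one_add_le_exp_mul abs_C0_le norm_th_le
  log_cond tc_bound card_Ux_le prod_pow_le)

set_option linter.unusedSectionVars false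
set_option linter.unusedVariables false

noncomputable section

section
variable {ρ τ : Type} [Fintype ρ] [Fintype τ] [DecidableEq ρ] [DecidableEq τ]
variable {n c w h g A B Q : ℕ}

variable {lam : Fin n → ℂ} {q : Fin n → ρ → τ → ℤ} {ν : Fin c → τ} {k : ρ → Fin c → ℂ}
  {E : Fin c → τ → ℂ} {C0 M : ℝ}

theorem norm_gaC_le (hh : 1 ≤ h) (hgh : g ^ Q ≤ h) (hg : 1 ≤ g)
    (hE : ∀ l a, ‖E l a‖ ≤ Real.exp (C0 * h))
    (u : Ux ρ τ h (g ^ (Q - B)) (g ^ (Q - A))) (a : τ) :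
    ‖gaC ν E u a‖ ≤ Real.exp ((c + |C0| + 1) * h) := by
  have e0 : (1 : ℝ) ≤ Real.exp (|C0| * h) := Real.one_le_exp (by positivity)
  have h1 : ‖gaC ν E u a‖ ≤ ((u.2 a : ℕ) : ℝ) + ∑ l, ‖E l a‖ * ((u.2 (ν l) : ℕ) : ℝ) := by
    rw [gaC]
    refine (norm_sub_le _ _).trans (add_le_add (by simp) ?_)
    refine (norm_sum_le _ _).trans (Finset.sum_le_sum fun l _ => ?_)
    rw [norm_mul, Complex.norm_natCast]
  have h2 : ∑ l, ‖E l a‖ * ((u.2 (ν l) : ℕ) : ℝ) ≤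
      ∑ _l : Fin c, Real.exp (|C0| * h) * Real.exp h :=
    Finset.sum_le_sum fun l _ => mul_le_mul (abs_C0_le (hE l a)) (mu_le hgh hg u _)
      (Nat.cast_nonneg _) (Real.exp_pos _).le
  rw [Finset.sum_const, Finset.card_univ, Fintype.card_fin, nsmul_eq_mul] at h2
  have h3 := mu_le hgh hg u a
  have h4 := one_add_le_exp_mul (x := (c : ℝ)) (Nat.cast_nonneg c) hh
  have h5 : Real.exp ((c + |C0| + 1) * h) =
      Real.exp (c * h) * (Real.exp (|C0| * h) * Real.exp h) := by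
    rw [← Real.exp_add, ← Real.exp_add]; congr 1; ring
  rw [h5]
  have e1 : Real.exp h ≤ Real.exp (|C0| * h) * Real.exp h :=
    le_mul_of_one_le_left (Real.exp_pos _).le e0
  have e2 : 0 < Real.exp (|C0| * h) * Real.exp (h : ℝ) := by positivity
  nlinarith

theorem norm_yyC_le (hh : 1 ≤ h)
    (hk : ∀ i l, ‖k i l‖ ≤ Real.exp (C0 * h)) (hE : ∀ l a, ‖E l a‖ ≤ Real.exp (C0 * h))
    (hM0 : 0 ≤ M) (hM : ∀ i a, ‖Lam lam q i a‖ ≤ M) (i : ρ) (l : Fin c) :
    ‖yyC lam q k E i l‖ ≤ Real.exp ((|C0| + Fintype.card τ * M) * h) := by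
  rw [yyC]
  have h1 : ‖(k i l + ∑ a, E l a * Lam lam q i a)‖ ≤
      Real.exp (|C0| * h) + ∑ _a : τ, Real.exp (|C0| * h) * M := by
    refine (norm_add_le _ _).trans (add_le_add ?_ ?_)
    · exact abs_C0_le (hk i l)
    · refine (norm_sum_le _ _).trans (Finset.sum_le_sum fun a _ => ?_)
      rw [norm_mul]
      exact mul_le_mul (abs_C0_le (hE l a)) (hM i a) (norm_nonneg _) (Real.exp_pos _).le
  rw [Finset.sum_const, Finset.card_univ, nsmul_eq_mul] at h1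
  have h2 := one_add_le_exp_mul (x := (Fintype.card τ : ℝ) * M) (by positivity) hh
  have h3 : Real.exp ((|C0| + Fintype.card τ * M) * h) =
      Real.exp (|C0| * h) * Real.exp (Fintype.card τ * M * h) := by
    rw [← Real.exp_add]; congr 1; ring
  rw [h3]
  have e2 : 0 < Real.exp (|C0| * h) := Real.exp_pos _
  nlinarith

theorem norm_ymC_le (hh : 1 ≤ h) (hgh : g ^ Q ≤ h) (hg : 1 ≤ g)
    (hk : ∀ i l, ‖k i l‖ ≤ Real.exp (C0 * h)) (hE : ∀ l a, ‖E l a‖ ≤ Real.exp (C0 * h))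
    (hM0 : 0 ≤ M) (hM : ∀ i a, ‖Lam lam q i a‖ ≤ M) (I : Fin w → ρ)
    (u : Ux ρ τ h (g ^ (Q - B)) (g ^ (Q - A))) (j : Fin w) :
    ‖ymC lam q ν k E I u j‖ ≤ Real.exp ((c + (|C0| + Fintype.card τ * M) + 1) * h) := by
  rw [ymC]
  have h1 : ‖∑ l, yyC lam q k E (I j) l * ((u.2 (ν l) : ℕ) : ℂ)‖ ≤
      ∑ _l : Fin c, Real.exp ((|C0| + Fintype.card τ * M) * h) * Real.exp h := by
    refine (norm_sum_le _ _).trans (Finset.sum_le_sum fun l _ => ?_)
    rw [norm_mul, Complex.norm_natCast]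
    exact mul_le_mul (norm_yyC_le hh hk hE hM0 hM _ _) (mu_le hgh hg u _) (Nat.cast_nonneg _)
      (Real.exp_pos _).le
  rw [Finset.sum_const, Finset.card_univ, Fintype.card_fin, nsmul_eq_mul] at h1
  have h2 := one_add_le_exp_mul (x := (c : ℝ)) (Nat.cast_nonneg c) hh
  have h3 : Real.exp ((c + (|C0| + Fintype.card τ * M) + 1) * h) =
      Real.exp (c * h) * (Real.exp ((|C0| + Fintype.card τ * M) * h) * Real.exp h) := by
    rw [← Real.exp_add, ← Real.exp_add]; congr 1; ring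
  rw [h3]
  have e2 : 0 < Real.exp ((|C0| + Fintype.card τ * M) * h) * Real.exp (h : ℝ) := by positivity
  nlinarith

theorem norm_kmC_le (hh : 1 ≤ h) (hgh : g ^ Q ≤ h) (hg : 1 ≤ g)
    (hk : ∀ i l, ‖k i l‖ ≤ Real.exp (C0 * h))
    (u : Ux ρ τ h (g ^ (Q - B)) (g ^ (Q - A))) (i : ρ) :
    ‖kmC ν k u i‖ ≤ Real.exp ((c + |C0| + 1) * h) := by
  rw [kmC]
  have h1 : ‖∑ l, k i l * ((u.2 (ν l) : ℕ) : ℂ)‖ ≤
      ∑ _l : Fin c, Real.exp (|C0| * h) * Real.exp h := by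
    refine (norm_sum_le _ _).trans (Finset.sum_le_sum fun l _ => ?_)
    rw [norm_mul, Complex.norm_natCast]
    exact mul_le_mul (abs_C0_le (hk i l)) (mu_le hgh hg u _) (Nat.cast_nonneg _)
      (Real.exp_pos _).le
  rw [Finset.sum_const, Finset.card_univ, Fintype.card_fin, nsmul_eq_mul] at h1
  have h2 := one_add_le_exp_mul (x := (c : ℝ)) (Nat.cast_nonneg c) hh
  have h3 : Real.exp ((c + |C0| + 1) * h) =
      Real.exp (c * h) * (Real.exp (|C0| * h) * Real.exp h) := by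
    rw [← Real.exp_add, ← Real.exp_add]; congr 1; ring
  rw [h3]
  have e2 : 0 < Real.exp (|C0| * h) * Real.exp (h : ℝ) := by positivity
  nlinarith

end

end

end Pool.Agent.H20.HR
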